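import Pool.Agent.Helper62.MU.St

/-! # MU module AB -/

set_option autoImplicit false

open MeasureTheory Metric Set Filter Topology Polynomial
open scoped RealInnerProductSpace ContDiff NNReal

namespace Pool.Agent.Helper16.MU

open Pool.Agent.Helper62.MU Pool.Agent.Helper62.Mink
open Pool.Agent.Helper62.Mink.Nec (consE norm_consE consE_zero consE_succ)

private lemma consE_add (m : ℕ) (x y : ℝ) (z : E (m + 1)) :
    consE (x + y) z = consE x z + y • po m := by
  ext i
  refine Fin.cases ?_ (fun j => ?_) i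
  · simp [po]
  · simp [po, consE_succ]

private lemma consE_line (m : ℕ) (x : ℝ) (z : E (m + 1)) :
    consE x z = consE 0 z + x • po m := by
  have := consE_add m 0 x z
  rwa [zero_add] at this

private lemma consE_ne (m : ℕ) (x : ℝ) {z : E (m + 1)} (hz : ‖z‖ = 1) : consE x z ≠ 0 := by
  rw [← norm_ne_zero_iff, norm_consE, hz]
  positivity

private lemma consE_le (m : ℕ) (x : ℝ) {z : E (m + 1)} (hz : ‖z‖ = 1) :
    ‖consE x z‖ ≤ 1 + |x| := by
  rw [norm_consE, hz]
  rw [Real.sqrt_le_left (by positivity)]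
  nlinarith [abs_nonneg x, sq_abs x]

private lemma consE_cont (m : ℕ) : Continuous fun p : ℝ × E (m + 1) => consE p.1 p.2 := by
  unfold consE
  refine (PiLp.continuous_toLp 2 _).comp (continuous_pi fun i => ?_)
  refine Fin.cases ?_ (fun j => ?_) i
  · simpa using continuous_fst
  · simp only [Fin.cons_succ]
    exact (PiLp.continuous_apply 2 _ j).comp continuous_snd

private lemma norm_po (m : ℕ) : ‖po m‖ = 1 := by
  simp [po]

private lemma cont_of {m : ℕ} {G : E (m + 2) → ℝ} (hG : ∀ w, w ≠ 0 → ContinuousAt G w)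
    {c : E (m + 1) → ℝ} (hc : Continuous c) :
    Continuous (Function.uncurry fun (x : ℝ) (z : sphere (0 : E (m + 1)) 1) =>
      c z * G (consE x z)) := by
  refine continuous_iff_continuousAt.2 fun p => ?_
  have h1 : ContinuousAt (fun q : ℝ × sphere (0 : E (m + 1)) 1 => consE q.1 (q.2 : E (m + 1))) p :=
    ((consE_cont m).comp (continuous_fst.prodMk
      (continuous_subtype_val.comp continuous_snd))).continuousAt
  have h2 : ContinuousAt (fun q : ℝ × sphere (0 : E (m + 1)) 1 =>
      G (consE q.1 (q.2 : E (m + 1)))) p := by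
    refine ContinuousAt.comp (g := G) ?_ h1
    exact hG _ (consE_ne m _ (by simp))
  exact ((hc.comp (continuous_subtype_val.comp continuous_snd)).continuousAt).mul h2

private lemma key {m : ℕ} {G : E (m + 2) → ℝ} (hG : ContDiffOn ℝ ∞ G {0}ᶜ)
    {c : E (m + 1) → ℝ} (hc : Continuous c) (x : ℝ) :
    HasDerivAt (fun x => SI fun z : E (m + 1) => c z * G (consE x z))
      (SI fun z : E (m + 1) => c z * fderiv ℝ G (consE x z) (po m)) x := by
  have h1 := cont_of (m := m) (fun w hw => (cda hG hw).continuousAt) hc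
  have h2 := cont_of (m := m) (fun w hw => (cda1 hG (po m) hw).continuousAt) hc
  refine hasDerivAt_param (μ := (volume : Measure (E (m + 1))).toSphere)
    (Ψ := fun (x : ℝ) (z : sphere (0 : E (m + 1)) 1) => c z * G (consE x z))
    (Ψ' := fun (x : ℝ) (z : sphere (0 : E (m + 1)) 1) => c z * fderiv ℝ G (consE x z) (po m))
    (fun τ => h1.comp (Continuous.prodMk_right τ)) h2 (fun τ w => ?_) x
  have hw : ‖(w : E (m + 1))‖ = 1 := by simp
  have h3 : HasDerivAt (fun τ : ℝ => consE τ (w : E (m + 1))) (po m) τ := by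
    have h4 : HasDerivAt (fun τ : ℝ => consE 0 (w : E (m + 1)) + τ • po m)
        ((1 : ℝ) • po m) τ := ((hasDerivAt_id τ).smul_const (po m)).const_add _
    rw [one_smul] at h4
    exact h4.congr_of_eventuallyEq (Eventually.of_forall fun t => consE_line m t w)
  have h5 : HasFDerivAt G (fderiv ℝ G (consE τ (w : E (m + 1)))) (consE τ (w : E (m + 1))) :=
    ((cda hG (consE_ne m τ hw)).differentiableAt (by simp)).hasFDerivAt
  exact (h5.comp_hasDerivAt τ h3).const_mul _

private lemma SI_le {m : ℕ} {φ : E (m + 1) → ℝ} {C : ℝ} (h : ∀ z, ‖z‖ = 1 → |φ z| ≤ C) :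
    |SI φ| ≤ C * ((volume : Measure (E (m + 1))).toSphere).real univ := by
  unfold SI
  rw [← Real.norm_eq_abs]
  refine norm_integral_le_of_norm_le_const (Eventually.of_forall fun z => ?_)
  rw [Real.norm_eq_abs]
  exact h z (by simp)

theorem hAB : StAB := by
  intro m h hh hC hE
  have hC1 : ContDiffOn ℝ ∞ (fun y => fderiv ℝ h y (po m)) {0}ᶜ := fun y hy =>
    (cda1 hC (po m) hy).contDiffWithinAt
  have hC2 : ContDiffOn ℝ ∞ (D2 h (po m)) {0}ᶜ := fun y hy =>
    (cda2 hC (po m) hy).contDiffWithinAt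
  have hc0 : Continuous fun z : E (m + 1) => z 0 ^ 2 := by fun_prop
  have hc1 : Continuous fun _ : E (m + 1) => (1 : ℝ) := continuous_const
  have d1 : ∀ x, HasDerivAt (av h) (av1 h x) x := by
    intro x
    have := key hC hc1 x
    simp only [one_mul] at this
    exact this
  have d1' : ∀ x, HasDerivAt (av1 h) (SI fun z : E (m + 1) => D2 h (po m) (consE x z)) x := by
    intro x
    have := key hC1 hc1 x
    simp only [one_mul] at this
    exact this
  have d2 : ∀ x, HasDerivAt (bv h) (bv1 h x) x := fun x => key hC hc0 x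
  have d3 : ∀ x, HasDerivAt (bv1 h) (bv2 h x) x := fun x => key hC1 hc0 x
  have d4 : ∀ x, HasDerivAt (bv2 h)
      (SI fun z : E (m + 1) => z 0 ^ 2 * fderiv ℝ (D2 h (po m)) (consE x z) (po m)) x :=
    fun x => key hC2 hc0 x
  refine ⟨d1, d2, d3, continuous_iff_continuousAt.2 fun x => (d1' x).continuousAt,
    continuous_iff_continuousAt.2 fun x => (d4 x).continuousAt, fun x => ?_, ?_, ?_⟩
  · unfold bv2 SI
    refine integral_nonneg fun z => mul_nonneg (sq_nonneg _) ?_
    exact D2_nonneg hh hC (po m) (consE_ne m x (by simp))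
  · have e1 : ∀ x, bv h (-x) = bv h x := by
      intro x
      unfold bv
      congr 1
      ext z
      rw [hE x z]
    have h0 := d2 0
    have h1 : HasDerivAt (fun x => bv h (-x)) (bv1 h 0 * (-1)) 0 := by
      have h2 : HasDerivAt (bv h) (bv1 h 0) (-0) := by rw [neg_zero]; exact d2 0
      exact h2.comp 0 (hasDerivAt_neg 0)
    have h3 : (fun x => bv h (-x)) = bv h := funext e1
    rw [h3] at h1
    have h4 := h1.unique h0
    linarith
  · obtain ⟨K, hK⟩ := hh.exists_lipschitz
    have b0 : ∀ w : E (m + 2), |h w| ≤ K * ‖w‖ := by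
      intro w
      have := hK.dist_le_mul w 0
      rwa [hh.map_zero, dist_zero_right, dist_zero_right, Real.norm_eq_abs] at this
    have b1 : ∀ w : E (m + 2), |fderiv ℝ h w (po m)| ≤ K := by
      intro w
      have h1 := (fderiv ℝ h w).le_opNorm (po m)
      rw [norm_po, mul_one, Real.norm_eq_abs] at h1
      exact h1.trans (norm_fderiv_le_of_lipschitz ℝ hK)
    have z1 : ∀ z : E (m + 1), ‖z‖ = 1 → |z 0 ^ 2| ≤ 1 := by
      intro z hz
      have h1 : ‖z 0‖ ≤ ‖z‖ := PiLp.norm_apply_le z 0
      rw [hz, Real.norm_eq_abs] at h1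
      rw [abs_pow]
      exact pow_le_one₀ (abs_nonneg _) h1
    have hK0 : (0 : ℝ) ≤ K := K.2
    set M := ((volume : Measure (E (m + 1))).toSphere).real univ with hM
    have hM0 : 0 ≤ M := measureReal_nonneg
    have c0 : ∀ x (z : E (m + 1)), ‖z‖ = 1 → |h (consE x z)| ≤ K * (1 + |x|) := fun x z hz =>
      (b0 _).trans (mul_le_mul_of_nonneg_left (consE_le m x hz) hK0)
    refine ⟨K * M, fun x => ⟨?_, ?_, ?_, ?_⟩⟩
    · have := SI_le (m := m) (fun z hz => c0 x z hz)
      calc |av h x| ≤ K * (1 + |x|) * M := this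
        _ = K * M * (1 + |x|) := by ring
    · have := SI_le (m := m) (φ := fun z => z 0 ^ 2 * h (consE x z)) (C := K * (1 + |x|))
        (fun z hz => by
          rw [abs_mul]
          calc |z 0 ^ 2| * |h (consE x z)| ≤ 1 * (K * (1 + |x|)) :=
                mul_le_mul (z1 z hz) (c0 x z hz) (abs_nonneg _) zero_le_one
            _ = _ := one_mul _)
      calc |bv h x| ≤ K * (1 + |x|) * M := this
        _ = K * M * (1 + |x|) := by ring
    · exact SI_le (m := m) (fun z _ => b1 _)
    · exact SI_le (m := m) (φ := fun z => z 0 ^ 2 * fderiv ℝ h (consE x z) (po m)) (C := K)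
        (fun z hz => by
          rw [abs_mul]
          calc |z 0 ^ 2| * |fderiv ℝ h (consE x z) (po m)| ≤ 1 * K :=
                mul_le_mul (z1 z hz) (b1 _) (abs_nonneg _) zero_le_one
            _ = _ := one_mul _)

end Pool.Agent.Helper16.MU
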